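import Pool.Agent.helper4.QX.SpecD
import Pool.Agent.helper62.QU.All

set_option autoImplicit false

/-!
# Row PAN of project QX: polynomials of the averaging operator on sections
-/

open scoped MatrixGroups ContDiff Topology UpperHalfPlane
open UpperHalfPlane MeasureTheory ProbabilityTheory Filter Set Polynomial
open Pool.Agent.QU Pool.Agent.RP

namespace Pool.Agent.QX

section

variable {Γ : Subgroup SL(2, ℝ)} {V : Type} [NormedAddCommGroup V] [InnerProductSpace ℂ V]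

theorem PAN_real (ρ : Γ →* (V ≃ₗᵢ[ℂ] V)) (γ : Γ) (c : ℝ) (v : V) : ρ γ (c • v) = c • ρ γ v :=
  (ρ γ).toLinearEquiv.toLinearMap.map_smul_of_tower c v

/-- the real vector space of the continuous sections -/
def PAN_E (ρ : Γ →* (V ≃ₗᵢ[ℂ] V)) : Submodule ℝ (ℍ → V) where
  carrier := {φ | SecC ρ φ}
  zero_mem' := ⟨continuous_const, fun γ z => (map_zero (ρ γ)).symm⟩
  add_mem' := fun {a b} ha hb => ⟨ha.cont.add hb.cont, fun γ z => by
    show a (γ • z) + b (γ • z) = ρ γ (a z + b z)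
    rw [ha.eqv, hb.eqv, map_add]⟩
  smul_mem' := fun c a ha => ⟨ha.cont.const_smul c, fun γ z => by
    show c • a (γ • z) = ρ γ (c • a z)
    rw [ha.eqv, PAN_real]⟩

variable [CompleteSpace V] {ρ : Γ →* (V ≃ₗᵢ[ℂ] V)} {κ : ℝ → ℝ}

theorem PAN_conv (hκ : RK κ) {φ : ℍ → V} (h : SecC ρ φ) : SecC ρ (conv κ φ) :=
  ⟨(A_CVB V).2.2.2.2.2.1 κ φ hκ h.cont, A_EQV Γ V ρ κ φ h.eqv⟩

/-- `conv κ` on the sections -/
noncomputable def PAN_A (ρ : Γ →* (V ≃ₗᵢ[ℂ] V)) (hκ : RK κ) : PAN_E ρ →ₗ[ℝ] PAN_E ρ where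
  toFun x := ⟨conv κ x.1, PAN_conv hκ x.2⟩
  map_add' x y := Subtype.ext (funext fun z => by
    have h := (A_CVB V).2.1 κ x.1 y.1 1 1 z hκ x.2.cont y.2.cont
    simp only [one_smul] at h
    exact h)
  map_smul' c x := Subtype.ext (funext fun z => by
    have h := (A_CVB V).2.1 κ x.1 x.1 c 0 z hκ x.2.cont x.2.cont
    simp only [zero_smul, add_zero] at h
    exact h)

theorem PAN_it (hκ : RK κ) (j : ℕ) (x : PAN_E ρ) :
    (((PAN_A ρ hκ) ^ j) x).1 = (conv κ)^[j] x.1 := by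
  induction j with
  | zero => rfl
  | succ j ih =>
    rw [pow_succ', Function.iterate_succ_apply', ← ih]
    rfl

theorem PAN_pA (hκ : RK κ) (p : ℝ[X]) (x : PAN_E ρ) :
    pA κ p x.1 = (aeval (PAN_A ρ hκ) p x).1 := by
  funext z
  rw [aeval_eq_sum_range]
  unfold pA
  have h : ∀ s : Finset ℕ, ((∑ i ∈ s, p.coeff i • (PAN_A ρ hκ) ^ i : PAN_E ρ →ₗ[ℝ] PAN_E ρ) x).1 z =
      ∑ j ∈ s, p.coeff j • (conv κ)^[j] x.1 z := by
    intro s
    induction s using Finset.induction_on with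
    | empty => rfl
    | insert a s ha ih =>
      rw [Finset.sum_insert ha, Finset.sum_insert ha, ← ih, ← PAN_it hκ a x]
      rfl
  exact (h _).symm

theorem PAN_int {F : Set ℍ} (hF : NiceDom Γ F) {f : ℍ → ℝ} (hf : Continuous f) :
    IntegrableOn f F := by
  obtain ⟨K, hK, hFK⟩ := hF.rel
  exact (hf.continuousOn.integrableOn_compact hK).mono_set hFK

omit [CompleteSpace V] in
theorem PAN_ic {φ ψ : ℍ → V} (hφ : Continuous φ) (hψ : Continuous ψ) :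
    Continuous fun z => (inner ℂ (φ z) (ψ z)).re :=
  Complex.continuous_re.comp (hφ.inner hψ)

/-- the real form on the sections -/
noncomputable def PAN_B (ρ : Γ →* (V ≃ₗᵢ[ℂ] V)) {F : Set ℍ} (hF : NiceDom Γ F) :
    PAN_E ρ →ₗ[ℝ] PAN_E ρ →ₗ[ℝ] ℝ :=
  LinearMap.mk₂ ℝ (fun x y => ∫ z in F, (inner ℂ (x.1 z) (y.1 z)).re)
    (fun x y t => by
      rw [← integral_add (PAN_int hF (PAN_ic x.2.cont t.2.cont)) (PAN_int hF (PAN_ic y.2.cont t.2.cont))]
      congr 1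
      funext z
      show (inner ℂ (x.1 z + y.1 z) (t.1 z)).re = _
      rw [inner_add_left, Complex.add_re])
    (fun c x y => by
      rw [smul_eq_mul, ← integral_const_mul]
      congr 1
      funext z
      show (inner ℂ (c • x.1 z) (y.1 z)).re = _
      rw [← Complex.coe_smul, inner_smul_left, Complex.conj_ofReal, Complex.re_ofReal_mul])
    (fun t x y => by
      rw [← integral_add (PAN_int hF (PAN_ic t.2.cont x.2.cont)) (PAN_int hF (PAN_ic t.2.cont y.2.cont))]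
      congr 1
      funext z
      show (inner ℂ (t.1 z) (x.1 z + y.1 z)).re = _
      rw [inner_add_right, Complex.add_re])
    (fun c x y => by
      rw [smul_eq_mul, ← integral_const_mul]
      congr 1
      funext z
      show (inner ℂ (x.1 z) (c • y.1 z)).re = _
      rw [← Complex.coe_smul, inner_smul_right, Complex.re_ofReal_mul])

omit [CompleteSpace V] in
theorem PAN_B_apply {F : Set ℍ} (hF : NiceDom Γ F) (x y : PAN_E ρ) :
    PAN_B ρ hF x y = ∫ z in F, (inner ℂ (x.1 z) (y.1 z)).re := rfl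

omit [CompleteSpace V] in
theorem PAN_B_self {F : Set ℍ} (hF : NiceDom Γ F) (x : PAN_E ρ) :
    PAN_B ρ hF x x = ∫ z in F, ‖x.1 z‖ ^ 2 := by
  rw [PAN_B_apply]
  congr 1
  funext z
  rw [← @inner_self_eq_norm_sq ℂ V _ _ _ (x.1 z)]
  rfl

theorem PAN_symm {F : Set ℍ} (hΓ : SurfaceGroup Γ) (hF : NiceDom Γ F) (hκ : RK κ) {φ ψ : ℍ → V}
    (hφ : SecC ρ φ) (hψ : SecC ρ ψ) :
    ∫ z in F, (inner ℂ (conv κ φ z) (ψ z)).re = ∫ z in F, (inner ℂ (φ z) (conv κ ψ z)).re := by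
  have h1 := A_TTT
  obtain ⟨R, hR0, hR⟩ := KER_rad h1 hκ
  have hc2 := KER_cont h1 hκ
  have hint : ∀ (χ : ℍ → V), Continuous χ → ∀ z : ℍ,
      Integrable (fun w => κ (tt z w) • χ w) (volume : Measure ℍ) := fun χ hχ z =>
    Continuous.integrable_of_hasCompactSupport
      ((hc2.comp (by fun_prop : Continuous fun w : ℍ => (z, w))).smul hχ)
      (KER_hcs _ z R fun v hv => hR _ _ (left_ne_zero_of_smul hv))
  set G : ℍ → ℍ → ℝ := fun z w => κ (tt z w) * (inner ℂ (ψ z) (φ w)).re with hG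
  have hGc : Continuous (Function.uncurry G) := by
    have : Continuous fun p : ℍ × ℍ => κ (tt p.1 p.2) * (inner ℂ (ψ p.1) (φ p.2)).re :=
      hc2.mul (Complex.continuous_re.comp ((hψ.cont.comp continuous_fst).inner
        (hφ.cont.comp continuous_snd)))
    exact this
  have hGi : ∀ (γ : Γ) z w, G (γ • z) (γ • w) = G z w := by
    intro γ z w
    simp only [hG]
    rw [hφ.eqv γ w, hψ.eqv γ z, LinearIsometryEquiv.inner_map_map]
    have : tt (γ • z) (γ • w) = tt z w := h1.2.2.2.1 (γ : SL(2, ℝ)) z w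
    rw [this]
  have hGp : ∃ R : ℝ, ∀ z w, G z w ≠ 0 → dist z w ≤ R := by
    refine ⟨R, fun z w hne => hR _ _ ?_⟩
    simp only [hG] at hne
    exact (mul_ne_zero_iff.mp hne).1
  have hS := A_SYM Γ F ℝ G hΓ hF hGc hGi hGp
  have eL : ∀ z : ℍ, (inner ℂ (conv κ φ z) (ψ z)).re = ∫ w : ℍ, G z w := by
    intro z
    rw [KER_sym, KER_conv κ φ (ψ z) z (hint φ hφ.cont z)]
  have eR : ∀ z : ℍ, (inner ℂ (φ z) (conv κ ψ z)).re = ∫ w : ℍ, G w z := by
    intro z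
    rw [KER_conv κ ψ (φ z) z (hint ψ hψ.cont z)]
    refine integral_congr_ae (Eventually.of_forall fun w => ?_)
    simp only [hG]
    rw [KER_sym (ψ w), h1.2.2.1 w z]
  simp_rw [eL, eR]
  exact hS

end

section laplace

variable {E : Type} [NormedAddCommGroup E] [NormedSpace ℝ E]

theorem PAN_cd1 {f : ℍ → E} (hf : CD 2 f) : CD 1 f := (A_CA1 E).2.1 f 1 2 (by norm_num) hf

theorem PAN_cdX {f : ℍ → E} (hf : CD 2 f) : CD 1 (dX f) ∧ CD 1 (dY f) := by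
  obtain ⟨-, -, -, -, c4, -⟩ := A_CA1 E
  have h := c4 f 1 (by rw [FI1_two]; exact hf)
  rw [Nat.cast_one] at h
  exact h

theorem PAN_lap_add {f g : ℍ → E} (hf : CD 2 f) (hg : CD 2 g)
    (z : ℍ) : lap (fun z => f z + g z) z = lap f z + lap g z := by
  obtain ⟨-, -, c2, -, -, c5, -⟩ := A_CA1 E
  have hfg : CD 2 (fun z => f z + g z) := c2 f g 2 hf hg
  rw [(A_CA2 E _ hfg z).2, (A_CA2 E _ hf z).2, (A_CA2 E _ hg z).2]
  have hX : dX (fun z => f z + g z) = fun z => dX f z + dX g z :=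
    funext fun z => (c5 f g (PAN_cd1 hf) (PAN_cd1 hg) z).1
  have hY : dY (fun z => f z + g z) = fun z => dY f z + dY g z :=
    funext fun z => (c5 f g (PAN_cd1 hf) (PAN_cd1 hg) z).2
  rw [hX, hY, (c5 (dX f) (dX g) (PAN_cdX hf).1 (PAN_cdX hg).1 z).1,
    (c5 (dY f) (dY g) (PAN_cdX hf).2 (PAN_cdX hg).2 z).2]
  module

theorem PAN_lap_smul (c : ℝ) {f : ℍ → E} (hf : CD 2 f)
    (z : ℍ) : lap (fun z => c • f z) z = c • lap f z := by
  obtain ⟨-, -, -, c3, -, -, c6, c7, c8, -⟩ := A_CA1 E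
  obtain ⟨-, -, -, -, -, -, -, c7', c8', -⟩ := A_CA1 ℝ
  have hc2 : CD 2 (fun _ : ℍ => c) := c8' c 2
  have hc1 : CD 1 (fun _ : ℍ => c) := c8' c 1
  have hcf : CD 2 (fun z => c • f z) := c3 (fun _ => c) f 2 hc2 hf
  have key : ∀ F : ℍ → E, CD 1 F → dX (fun z => c • F z) = (fun z => c • dX F z) ∧
      dY (fun z => c • F z) = (fun z => c • dY F z) := by
    intro F hF
    constructor
    · funext w
      have h := (c6 (fun _ => c) F hc1 hF w).1
      rw [(c7' c w).1, zero_smul, add_zero] at h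
      exact h
    · funext w
      have h := (c6 (fun _ => c) F hc1 hF w).2
      rw [(c7' c w).2, zero_smul, add_zero] at h
      exact h
  rw [(A_CA2 E _ hcf z).2, (A_CA2 E _ hf z).2, (key f (PAN_cd1 hf)).1, (key f (PAN_cd1 hf)).2,
    (key _ (PAN_cdX hf).1).1, (key _ (PAN_cdX hf).2).2]
  simp only [smul_add, smul_sub, smul_neg]

theorem PAN_lap_zero (z : ℍ) : lap (fun _ : ℍ => (0 : E)) z = 0 := by
  have h := PAN_lap_smul (0 : ℝ) ((A_CA1 E).2.2.2.2.2.2.2.2.1 (0 : E) 2) z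
  simpa using h

/-- finite sums -/
theorem PAN_sumc {ι : Type} (s : Finset ι) (x : ι → ℝ) (n : WithTop ℕ∞)
    (f : ι → ℍ → E) (hf : ∀ l ∈ s, CD n (f l)) : CD n (fun v => ∑ l ∈ s, x l • f l v) := by
  classical
  induction s using Finset.induction_on with
  | empty =>
    simp only [Finset.sum_empty]
    exact (A_CA1 E).2.2.2.2.2.2.2.2.1 (0 : E) n
  | insert a s ha ih =>
    simp only [Finset.sum_insert ha]
    refine (A_CA1 E).2.2.1 _ _ n ?_ (ih fun l hl => hf l (Finset.mem_insert_of_mem hl))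
    exact (A_CA1 E).2.2.2.1 (fun _ => x a) (f a) n ((A_CA1 ℝ).2.2.2.2.2.2.2.2.1 (x a) n)
      (hf a (Finset.mem_insert_self a s))

theorem PAN_suml {ι : Type} (s : Finset ι) (x : ι → ℝ)
    (f : ι → ℍ → E) (hf : ∀ l ∈ s, CD 2 (f l)) (z : ℍ) :
    lap (fun v => ∑ l ∈ s, x l • f l v) z = ∑ l ∈ s, x l • lap (f l) z := by
  classical
  induction s using Finset.induction_on with
  | empty =>
    simp only [Finset.sum_empty]
    exact PAN_lap_zero z
  | insert a s ha ih =>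
    simp only [Finset.sum_insert ha]
    have h1 : CD 2 (f a) := hf a (Finset.mem_insert_self a s)
    have h2 : CD 2 (fun z => x a • f a z) :=
      (A_CA1 E).2.2.2.1 (fun _ => x a) (f a) 2 ((A_CA1 ℝ).2.2.2.2.2.2.2.2.1 (x a) 2) h1
    have h3 := PAN_sumc s x 2 f fun l hl => hf l (Finset.mem_insert_of_mem hl)
    rw [PAN_lap_add h2 h3 z, PAN_lap_smul (x a) h1 z, ih fun l hl => hf l (Finset.mem_insert_of_mem hl)]

end laplace

theorem PAN_iter {E : Type} [NormedAddCommGroup E] [NormedSpace ℝ E] [CompleteSpace E] {κ : ℝ → ℝ}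
    (hκ : RK κ) {f : ℍ → E} (hf : CD 2 f) (j : ℕ) :
    CD 2 ((conv κ)^[j] f) ∧ lap ((conv κ)^[j] f) = (conv κ)^[j] (lap f) := by
  induction j with
  | zero => exact ⟨hf, rfl⟩
  | succ j ih =>
    obtain ⟨h1, h2⟩ := ih
    have hc : Continuous ((conv κ)^[j] f) := ((A_CA1 E).1 _).1 ((A_CA1 E).2.1 _ 0 2 (by simp) h1)
    obtain ⟨h3, -, -, h4⟩ := A_CVS E κ ((conv κ)^[j] f) hκ hc
    rw [Function.iterate_succ_apply', Function.iterate_succ_apply']
    refine ⟨h3, funext fun z => ?_⟩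
    rw [h4 z, ← A_COM E κ _ hκ h1 z, h2]

/-- **Row PAN**. -/
theorem PAN (hSPC : SPC_stmt) (_hYNM : YNM_stmt) (hCVI : CVI_stmt) : PAN_stmt := by
  intro Γ F V _ _ _ ρ κ p hΓ hF hκ hκ0 hm
  refine ⟨?_, ?_, ?_, ?_, ?_, ?_, ?_⟩
  · intro φ hφ
    have h := PAN_pA hκ p (⟨φ, hφ⟩ : PAN_E ρ)
    show SecC ρ (pA κ p (⟨φ, hφ⟩ : PAN_E ρ).1)
    rw [h]
    exact (aeval (PAN_A ρ hκ) p ⟨φ, hφ⟩).2
  · intro φ M hφ hM hp
    have h := hSPC (PAN_E ρ) (PAN_B ρ hF) (PAN_A ρ hκ)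
      (fun x y => by
        rw [PAN_B_apply, PAN_B_apply]
        congr 1
        funext z
        exact KER_sym _ _)
      (fun x => by
        rw [PAN_B_self]
        exact integral_nonneg fun z => sq_nonneg _)
      (fun x y => PAN_symm hΓ hF hκ x.2 y.2)
      (fun x => by
        rw [PAN_B_self, PAN_B_self]
        have h1 := A_YNG Γ F V κ x.1 1 hΓ hF hκ hκ0 hm x.2.cont (fun γ z => by
          rw [x.2.eqv, LinearIsometryEquiv.norm_map])
        rw [one_pow, one_mul] at h1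
        exact h1) p M hM hp ⟨φ, hφ⟩
    rw [PAN_B_self, PAN_B_self, ← PAN_pA hκ p ⟨φ, hφ⟩] at h
    exact h
  · intro q x₀ φ hφ hq z
    have h1 := PAN_pA hκ q (⟨φ, hφ⟩ : PAN_E ρ)
    have h2 := PAN_pA hκ p ((PAN_A ρ hκ ⟨φ, hφ⟩) - x₀ • (⟨φ, hφ⟩ : PAN_E ρ))
    have e1 : (fun w => conv κ φ w - x₀ • φ w) =
        ((PAN_A ρ hκ ⟨φ, hφ⟩) - x₀ • (⟨φ, hφ⟩ : PAN_E ρ) : PAN_E ρ).1 := rfl
    have e2 : aeval (PAN_A ρ hκ) q ⟨φ, hφ⟩ =
        aeval (PAN_A ρ hκ) p ((PAN_A ρ hκ ⟨φ, hφ⟩) - x₀ • (⟨φ, hφ⟩ : PAN_E ρ)) := by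
      rw [hq, mul_comm, map_mul, map_sub, aeval_X, aeval_C]
      rfl
    rw [e1, h2, ← e2, ← h1]
  · intro q φ hφ hq z
    have h1 := PAN_pA hκ q (⟨φ, hφ⟩ : PAN_E ρ)
    have h2 := PAN_pA hκ p (⟨φ, hφ⟩ : PAN_E ρ)
    have e2 : (aeval (PAN_A ρ hκ) q ⟨φ, hφ⟩ : PAN_E ρ) = ⟨φ, hφ⟩ + aeval (PAN_A ρ hκ) p ⟨φ, hφ⟩ := by
      rw [hq, map_add, map_one]
      rfl
    show pA κ q (⟨φ, hφ⟩ : PAN_E ρ).1 z = φ z + pA κ p (⟨φ, hφ⟩ : PAN_E ρ).1 z
    rw [h1, h2, e2]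
    rfl
  · intro φ ψ t hφ hψ z
    have h1 := PAN_pA hκ p ((⟨φ, hφ⟩ : PAN_E ρ) + t • ⟨ψ, hψ⟩)
    have h2 := PAN_pA hκ p (⟨φ, hφ⟩ : PAN_E ρ)
    have h3 := PAN_pA hκ p (⟨ψ, hψ⟩ : PAN_E ρ)
    have e1 : (fun w => φ w + t • ψ w) = ((⟨φ, hφ⟩ : PAN_E ρ) + t • ⟨ψ, hψ⟩ : PAN_E ρ).1 := rfl
    show _ = pA κ p (⟨φ, hφ⟩ : PAN_E ρ).1 z + t • pA κ p (⟨ψ, hψ⟩ : PAN_E ρ).1 z
    rw [e1, h1, h2, h3, map_add, map_smul]
    rfl
  · intro φ hφ hc
    refine PAN_sumc _ _ _ _ fun j _ => ?_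
    rcases j with - | j
    · exact hc
    · rw [Function.iterate_succ_apply']
      refine hCVI V κ _ hκ ?_
      have h := PAN_it hκ j (⟨φ, hφ⟩ : PAN_E ρ)
      show Continuous ((conv κ)^[j] (⟨φ, hφ⟩ : PAN_E ρ).1)
      rw [← h]
      exact (((PAN_A ρ hκ) ^ j) (⟨φ, hφ⟩ : PAN_E ρ)).2.cont
  · intro φ hφ hc z
    have h := PAN_suml (Finset.range (p.natDegree + 1)) (fun j => p.coeff j)
      (fun j => (conv κ)^[j] φ) (fun j _ => (PAN_iter hκ hc j).1) z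
    refine h.trans ?_
    unfold pA
    refine Finset.sum_congr rfl fun j _ => ?_
    rw [(PAN_iter hκ hc j).2]

end Pool.Agent.QX
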