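import Pool.Agent.helper4.QX.SpecP

set_option autoImplicit false

/-!
# Row TSF of project QX: test functions of the angle
-/

open scoped MatrixGroups ContDiff Topology UpperHalfPlane
open UpperHalfPlane MeasureTheory ProbabilityTheory Filter Set Polynomial
open Pool.Agent.QU Pool.Agent.RP

namespace Pool.Agent.QX

/-- the real Fourier coefficients -/
noncomputable def TSF_g (G : ℝ → ℝ) (j : ℕ) : ℝ :=
  (2 * Real.pi)⁻¹ * ∫ θ in (-Real.pi)..Real.pi, G θ * Real.cos (j * θ)

theorem TSF_odd {G : ℝ → ℝ} (he : ∀ θ, G (-θ) = G θ) (s : ℝ) :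
    ∫ θ in (-Real.pi)..Real.pi, G θ * Real.sin (s * θ) = 0 := by
  have h := intervalIntegral.integral_comp_neg (a := -Real.pi) (b := Real.pi)
    (fun θ => G θ * Real.sin (s * θ))
  rw [neg_neg] at h
  have h2 : ∫ θ in (-Real.pi)..Real.pi, G (-θ) * Real.sin (s * -θ) =
      - ∫ θ in (-Real.pi)..Real.pi, G θ * Real.sin (s * θ) := by
    rw [← intervalIntegral.integral_neg]
    congr 1
    funext θ
    rw [he, mul_neg, Real.sin_neg]
    ring
  linarith

theorem TSF_abs (n : ℤ) (x : ℝ) : Real.cos ((n : ℝ) * x) = Real.cos ((n.natAbs : ℝ) * x) := by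
  rcases Int.natAbs_eq n with h | h
  · conv_lhs => rw [h]
    rw [Int.cast_natCast]
  · conv_lhs => rw [h]
    rw [Int.cast_neg, Int.cast_natCast, neg_mul, Real.cos_neg]

theorem TSF_fou (n : ℤ) (x : ℝ) : (fourier n (x : AddCircle (2 * Real.pi)) : ℂ) =
    ((Real.cos (n * x) : ℝ) : ℂ) + ((Real.sin (n * x) : ℝ) : ℂ) * Complex.I := by
  rw [fourier_coe_apply]
  have h : (2 * (Real.pi : ℂ) * Complex.I * n * x / ((2 * Real.pi : ℝ) : ℂ)) =
      (((n : ℝ) * x : ℝ) : ℂ) * Complex.I := by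
    have hpi : (Real.pi : ℂ) ≠ 0 := by exact_mod_cast Real.pi_ne_zero
    push_cast
    field_simp
  rw [h, Complex.exp_mul_I, ← Complex.ofReal_cos, ← Complex.ofReal_sin]

theorem TSF_sum {G : ℝ → ℝ} (hG : Continuous G) (he : ∀ θ, G (-θ) = G θ)
    (hp : ∀ θ, G (θ + 2 * Real.pi) = G θ) (hs : Summable (TSF_g G)) (θ : ℝ) :
    HasSum (fun j : ℕ => (if j = 0 then TSF_g G 0 else 2 * TSF_g G j) * Real.cos (j * θ)) (G θ) := by
  have : Fact (0 < 2 * Real.pi) := ⟨Real.two_pi_pos⟩
  have hper : Function.Periodic (fun x : ℝ => (G x : ℂ)) (2 * Real.pi) := fun x => by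
    show (G (x + 2 * Real.pi) : ℂ) = G x
    rw [hp]
  let f : C(AddCircle (2 * Real.pi), ℂ) :=
    ⟨hper.lift, continuous_coinduced_dom.mpr (Complex.continuous_ofReal.comp hG)⟩
  have hf : ∀ x : ℝ, f (x : AddCircle (2 * Real.pi)) = (G x : ℂ) := fun x => hper.lift_coe x
  have hcoef : ∀ n : ℤ, fourierCoeff f n = (TSF_g G n.natAbs : ℂ) := by
    intro n
    rw [fourierCoeff_eq_intervalIntegral f n (-Real.pi), show -Real.pi + 2 * Real.pi = Real.pi by ring]
    have e2 : ∀ x : ℝ, (fourier (-n) (x : AddCircle (2 * Real.pi)) : ℂ) • f (x : AddCircle (2 * Real.pi)) =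
        ((G x * Real.cos (n.natAbs * x) : ℝ) : ℂ) + ((G x * Real.sin (((-n : ℤ) : ℝ) * x) : ℝ) : ℂ) * Complex.I := by
      intro x
      rw [TSF_fou, hf, TSF_abs (-n), Int.natAbs_neg, smul_eq_mul]
      push_cast
      ring
    simp_rw [e2]
    have c1 : Continuous fun x : ℝ => ((G x * Real.cos (n.natAbs * x) : ℝ) : ℂ) := by fun_prop
    have c2 : Continuous fun x : ℝ => ((G x * Real.sin (((-n : ℤ) : ℝ) * x) : ℝ) : ℂ) * Complex.I := by fun_prop
    rw [intervalIntegral.integral_add (c1.intervalIntegrable _ _) (c2.intervalIntegrable _ _),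
      intervalIntegral.integral_mul_const, intervalIntegral.integral_ofReal,
      intervalIntegral.integral_ofReal, TSF_odd he]
    unfold TSF_g
    rw [Complex.ofReal_zero, zero_mul, add_zero, Complex.real_smul, one_div]
    push_cast
    rfl
  have hZ : Summable (fourierCoeff f) := by
    have h1 : Summable fun n : ℤ => (TSF_g G n.natAbs : ℂ) := by
      apply Summable.of_nat_of_neg
      · simpa using Complex.summable_ofReal.mpr hs
      · simpa using Complex.summable_ofReal.mpr hs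
    exact h1.congr fun n => (hcoef n).symm
  have h1 := has_pointwise_sum_fourier_series_of_summable hZ (θ : AddCircle (2 * Real.pi))
  rw [hf] at h1
  have h2 := h1.nat_add_neg
  have e0 : fourierCoeff f 0 • (fourier 0 (θ : AddCircle (2 * Real.pi)) : ℂ) = (TSF_g G 0 : ℂ) := by
    rw [hcoef, fourier_zero, smul_eq_mul, mul_one]
    rfl
  rw [e0] at h2
  have e1 : ∀ n : ℕ, fourierCoeff f n • (fourier n (θ : AddCircle (2 * Real.pi)) : ℂ) +
      fourierCoeff f (-n) • (fourier (-n) (θ : AddCircle (2 * Real.pi)) : ℂ) =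
      ((2 * TSF_g G n * Real.cos (n * θ) : ℝ) : ℂ) := by
    intro n
    rw [hcoef, hcoef, TSF_fou, TSF_fou, Int.natAbs_neg, Int.natAbs_natCast, smul_eq_mul, smul_eq_mul]
    have a1 : Real.cos (((-(n : ℤ) : ℤ) : ℝ) * θ) = Real.cos (n * θ) := by
      rw [TSF_abs, Int.natAbs_neg, Int.natAbs_natCast]
    have a2 : Real.sin (((-(n : ℤ) : ℤ) : ℝ) * θ) = -Real.sin (n * θ) := by
      rw [Int.cast_neg, Int.cast_natCast, neg_mul, Real.sin_neg]
    rw [a1, a2, Int.cast_natCast]
    push_cast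
    ring
  have h3 : HasSum (fun n : ℕ => ((2 * TSF_g G n * Real.cos (n * θ) : ℝ) : ℂ))
      (((G θ + TSF_g G 0 : ℝ)) : ℂ) := by
    rw [Complex.ofReal_add]
    exact h2.congr_fun fun n => (e1 n).symm
  have h4 := Complex.hasSum_ofReal.mp h3
  have h5 : HasSum (fun n : ℕ => if n = 0 then TSF_g G 0 else 0) (TSF_g G 0) := hasSum_ite_eq 0 _
  have h6 := h4.sub h5
  rw [add_sub_cancel_right] at h6
  refine h6.congr_fun fun n => ?_
  rcases Nat.eq_zero_or_pos n with h | h
  · subst h
    simp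
    ring
  · simp [h.ne']

/-- **Row TSF**. -/
theorem TSF (h1 : TS1_stmt) : TSF_stmt := by
  intro r a b hr ha hab hb
  obtain ⟨G, g1, g2, g3, g4, g5, g6, g7, g8⟩ := h1 r a b hr ha hab hb
  have hba : 0 < b - a := by linarith
  have hs : Summable (TSF_g G) := by
    have k1 : Summable fun j : ℕ => (2 * (r : ℝ) / (b - a)) ^ r * (1 / (j : ℝ) ^ r) :=
      (Real.summable_one_div_nat_pow.mpr (by omega)).mul_left _
    refine Summable.of_norm_bounded_eventually_nat (g := fun j : ℕ => (2 * (r : ℝ) / (b - a)) ^ r * (1 / (j : ℝ) ^ r)) k1 ?_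
    filter_upwards [eventually_ge_atTop 1] with j hj
    have hj0 : (0 : ℝ) < j := by exact_mod_cast hj
    refine (g8 j hj).trans (le_of_eq ?_)
    rw [← one_div_pow, ← mul_pow]
    congr 1
    field_simp
  refine ⟨fun j => if j = 0 then TSF_g G 0 else 2 * TSF_g G j, ?_, ?_, ?_⟩
  · simp only [if_true]
    have hint : ∀ f : ℝ → ℝ, Continuous f → IntervalIntegrable f volume (-Real.pi) Real.pi := fun f hf =>
      hf.intervalIntegrable _ _
    have hpi := Real.pi_pos
    have e : TSF_g G 0 = (2 * Real.pi)⁻¹ * ∫ θ in (-Real.pi)..Real.pi, G θ := by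
      unfold TSF_g
      simp
    have i1 : 0 ≤ ∫ θ in (-Real.pi)..Real.pi, G θ :=
      intervalIntegral.integral_nonneg (by linarith) fun u _ => (g4 u).1
    have i2 : ∫ θ in (-Real.pi)..Real.pi, G θ ≤ 2 * Real.pi := by
      have := intervalIntegral.integral_mono_on (a := -Real.pi) (b := Real.pi) (f := G)
        (g := fun _ => (1 : ℝ)) (by linarith) (hint _ g1) (hint _ continuous_const) fun u _ => (g4 u).2
      refine this.trans (le_of_eq ?_)
      rw [intervalIntegral.integral_const, smul_eq_mul]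
      ring
    rw [e, abs_of_nonneg (by positivity)]
    rw [inv_mul_le_iff₀ (by positivity), mul_one]
    exact i2
  · intro j hj
    have hj0 : j ≠ 0 := by omega
    simp only [hj0, if_false]
    rw [abs_mul, abs_of_pos (by norm_num : (0 : ℝ) < 2)]
    exact mul_le_mul_of_nonneg_left (g8 j hj) (by norm_num)
  · intro θ
    have h := (TSF_sum g1 g2 g3 hs θ).tsum_eq
    rw [h]
    exact ⟨(g4 θ).1, (g4 θ).2, g5 θ, g6 θ, g7 θ⟩

end Pool.Agent.QX
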