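import Pool.Agent.helper4.QX.SpecF

/-!
# Project QX (MP_07c750), row qf:EKF: the frame derivatives of `conv κ g` are bounded, with explicit constants
-/

set_option autoImplicit false

open scoped MatrixGroups ContDiff Topology UpperHalfPlane
open UpperHalfPlane MeasureTheory Filter Set
open Pool.Agent.QU Pool.Agent.RP

namespace Pool.Agent.QX

theorem EKF_dz (κ : ℝ → ℝ) (h : Differentiable ℝ κ) (hz : ∀ t, 1 ≤ t → κ t = 0) (t : ℝ)
    (ht : 1 ≤ t) : deriv κ t = 0 := by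
  have h1 : HasDerivWithinAt κ (deriv κ t) (Ici 1) t := (h t).hasDerivAt.hasDerivWithinAt
  have h2 : HasDerivWithinAt κ 0 (Ici 1) t :=
    (hasDerivWithinAt_const t (Ici 1) (0 : ℝ)).congr (fun x hx => hz x hx) (hz t ht)
  exact ((uniqueDiffOn_Ici (1 : ℝ)) t ht).eq_deriv _ h1 h2

/-- the function `t(z, w)` of `z` -/
noncomputable def EKF_T (w : ℍ) : ℂ → ℝ := onC (fun z' => tt z' w)

/-- the parameter -/
noncomputable def EKF_q (w : ℍ) : ℂ × ℝ := ((w : ℂ), (1 : ℝ))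

theorem EKF_W : IsOpen (CA1_U ×ˢ (univ : Set ℝ)) := CA1_open.prod isOpen_univ

theorem EKF_qm (w : ℍ) : EKF_q w ∈ CA1_U ×ˢ (univ : Set ℝ) := ⟨CA1_mem w, mem_univ _⟩

theorem EKF_qc : Continuous EKF_q := UpperHalfPlane.continuous_coe.prodMk continuous_const

theorem EKF_g0 : ContDiffOn ℝ ∞ (CVS_g (E := ℝ) id) (CA1_U ×ˢ (CA1_U ×ˢ (univ : Set ℝ))) :=
  CVS_gsm contDiff_id

theorem EKF_g1 : ContDiffOn ℝ ∞ (CVS_D (CVS_g (E := ℝ) id))
    (CA1_U ×ˢ (CA1_U ×ˢ (univ : Set ℝ))) := CVS_Dsm EKF_W EKF_g0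

theorem EKF_g2 : ContDiffOn ℝ ∞ (CVS_D (CVS_D (CVS_g (E := ℝ) id)))
    (CA1_U ×ˢ (CA1_U ×ˢ (univ : Set ℝ))) := CVS_Dsm EKF_W EKF_g1

theorem EKF_T1 (w : ℍ) {ζ : ℂ} (hζ : ζ ∈ CA1_U) :
    HasFDerivAt (EKF_T w) (CVS_D (CVS_g (E := ℝ) id) (ζ, EKF_q w)) ζ := by
  refine (CVS_Dd EKF_W EKF_g0 hζ (EKF_qm w)).congr_of_eventuallyEq ?_
  filter_upwards [CA1_open.mem_nhds hζ] with x hx
  show tt (ofComplex x) w = _
  rw [CVS_tt hx]
  unfold CVS_g EKF_q
  simp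

theorem EKF_T2 (w : ℍ) {ζ : ℂ} (hζ : ζ ∈ CA1_U) :
    HasFDerivAt (fderiv ℝ (EKF_T w)) (CVS_D (CVS_D (CVS_g (E := ℝ) id)) (ζ, EKF_q w)) ζ := by
  refine (CVS_Dd EKF_W EKF_g1 hζ (EKF_qm w)).congr_of_eventuallyEq ?_
  filter_upwards [CA1_open.mem_nhds hζ] with x hx
  exact (EKF_T1 w hx).fderiv

theorem EKF_bound (K : Set ℍ) (hK : IsCompact K) : ∃ B : ℝ, 0 ≤ B ∧ ∀ w ∈ K,
    ‖fderiv ℝ (EKF_T w) ((UpperHalfPlane.I : ℍ) : ℂ)‖ ≤ B ∧
    ‖fderiv ℝ (fderiv ℝ (EKF_T w)) ((UpperHalfPlane.I : ℍ) : ℂ)‖ ≤ B := by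
  have hI : ((UpperHalfPlane.I : ℍ) : ℂ) ∈ CA1_U := CA1_mem _
  have hc : Continuous fun w : ℍ => (((UpperHalfPlane.I : ℍ) : ℂ), EKF_q w) :=
    continuous_const.prodMk EKF_qc
  have c1 : Continuous fun w : ℍ =>
      CVS_D (CVS_g (E := ℝ) id) (((UpperHalfPlane.I : ℍ) : ℂ), EKF_q w) :=
    EKF_g1.continuousOn.comp_continuous hc fun w => ⟨hI, EKF_qm w⟩
  have c2 : Continuous fun w : ℍ =>
      CVS_D (CVS_D (CVS_g (E := ℝ) id)) (((UpperHalfPlane.I : ℍ) : ℂ), EKF_q w) :=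
    EKF_g2.continuousOn.comp_continuous hc fun w => ⟨hI, EKF_qm w⟩
  obtain ⟨B1, hB1⟩ := hK.exists_bound_of_continuousOn c1.continuousOn
  obtain ⟨B2, hB2⟩ := hK.exists_bound_of_continuousOn c2.continuousOn
  refine ⟨max 0 (max B1 B2), le_max_left _ _, fun w hw => ⟨?_, ?_⟩⟩
  · rw [(EKF_T1 w hI).fderiv]
    exact (hB1 w hw).trans ((le_max_left _ _).trans (le_max_right _ _))
  · rw [(EKF_T2 w hI).fderiv]
    exact (hB2 w hw).trans ((le_max_right _ _).trans (le_max_right _ _))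

theorem EKF_D1 (κ : ℝ → ℝ) (hκ : ContDiff ℝ ∞ κ) (w : ℍ) {ζ : ℂ} (hζ : ζ ∈ CA1_U) :
    HasFDerivAt (onC (fun z' => κ (tt z' w)))
      (deriv κ (EKF_T w ζ) • fderiv ℝ (EKF_T w) ζ) ζ := by
  have h1 : HasDerivAt κ (deriv κ (EKF_T w ζ)) (EKF_T w ζ) :=
    (hκ.differentiable (by simp) _).hasDerivAt
  have h2 : HasFDerivAt (EKF_T w) (fderiv ℝ (EKF_T w) ζ) ζ :=
    (EKF_T1 w hζ).differentiableAt.hasFDerivAt
  exact h1.comp_hasFDerivAt ζ h2

theorem EKF_D2 (κ : ℝ → ℝ) (hκ : ContDiff ℝ ∞ κ) (w : ℍ) {ζ : ℂ} (hζ : ζ ∈ CA1_U) (v v' : ℂ) :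
    fderiv ℝ (fderiv ℝ (onC (fun z' => κ (tt z' w)))) ζ v v' =
      deriv κ (EKF_T w ζ) * fderiv ℝ (fderiv ℝ (EKF_T w)) ζ v v' +
      deriv (deriv κ) (EKF_T w ζ) * (fderiv ℝ (EKF_T w) ζ v) * (fderiv ℝ (EKF_T w) ζ v') := by
  have hκ' : ContDiff ℝ ∞ (deriv κ) := by
    have h' : ContDiff ℝ (∞ + 1) κ := hκ
    exact ((contDiff_succ_iff_deriv).1 h').2.2
  have h1 : HasDerivAt (deriv κ) (deriv (deriv κ) (EKF_T w ζ)) (EKF_T w ζ) :=
    (hκ'.differentiable (by simp) _).hasDerivAt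
  have h2 : HasFDerivAt (EKF_T w) (fderiv ℝ (EKF_T w) ζ) ζ :=
    (EKF_T1 w hζ).differentiableAt.hasFDerivAt
  have h3 : HasFDerivAt (fderiv ℝ (EKF_T w)) (fderiv ℝ (fderiv ℝ (EKF_T w)) ζ) ζ :=
    (EKF_T2 w hζ).differentiableAt.hasFDerivAt
  have h4 : HasFDerivAt (fun x => deriv κ (EKF_T w x))
      (deriv (deriv κ) (EKF_T w ζ) • fderiv ℝ (EKF_T w) ζ) ζ := h1.comp_hasFDerivAt ζ h2
  have h5 : HasFDerivAt (fun x => deriv κ (EKF_T w x) • fderiv ℝ (EKF_T w) x)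
      (deriv κ (EKF_T w ζ) • fderiv ℝ (fderiv ℝ (EKF_T w)) ζ +
        (deriv (deriv κ) (EKF_T w ζ) • fderiv ℝ (EKF_T w) ζ).smulRight
          (fderiv ℝ (EKF_T w) ζ)) ζ := h4.smul h3
  have h6 : HasFDerivAt (fderiv ℝ (onC (fun z' => κ (tt z' w))))
      (deriv κ (EKF_T w ζ) • fderiv ℝ (fderiv ℝ (EKF_T w)) ζ +
        (deriv (deriv κ) (EKF_T w ζ) • fderiv ℝ (EKF_T w) ζ).smulRight
          (fderiv ℝ (EKF_T w) ζ)) ζ := by
    refine h5.congr_of_eventuallyEq ?_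
    filter_upwards [CA1_open.mem_nhds hζ] with x hx
    exact (EKF_D1 κ hκ w hx).fderiv
  rw [h6.fderiv]
  simp [ContinuousLinearMap.smulRight_apply]

theorem EKF_int (K : Set ℍ) (hK : IsCompact K) (G : ℍ → ℝ) (B : ℝ)
    (h1 : ∀ w ∈ K, |G w| ≤ B) (h2 : ∀ w, w ∉ K → G w = 0) :
    |∫ w : ℍ, G w| ≤ (volume K).toReal * B := by
  have hi : Integrable (K.indicator fun _ => B) (volume : Measure ℍ) :=
    (integrable_indicator_iff hK.isClosed.measurableSet).mpr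
      (integrableOn_const hK.measure_lt_top.ne)
  have h := norm_integral_le_of_norm_le (f := G) hi (Eventually.of_forall fun w => by
    by_cases hw : w ∈ K
    · rw [Set.indicator_of_mem hw]
      exact h1 w hw
    · rw [Set.indicator_of_notMem hw, h2 w hw, norm_zero])
  rw [integral_indicator_const _ hK.isClosed.measurableSet, smul_eq_mul] at h
  exact h

theorem EKF : EKF_stmt := by
  have hTTT := A_TTT
  obtain ⟨R, hR0, hR⟩ := hTTT.2.2.2.2.2.1 1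
  obtain ⟨K, hKdef⟩ : ∃ K, K = Metric.closedBall (UpperHalfPlane.I : ℍ) R := ⟨_, rfl⟩
  have hK : IsCompact K := by
    rw [hKdef]
    exact isCompact_closedBall _ _
  have hout : ∀ w : ℍ, w ∉ K → 1 ≤ tt UpperHalfPlane.I w := by
    intro w hw
    by_contra hc
    push Not at hc
    apply hw
    rw [hKdef, Metric.mem_closedBall, dist_comm]
    exact hR _ _ hc.le
  obtain ⟨B, hB0, hB⟩ := EKF_bound K hK
  obtain ⟨V, hV⟩ : ∃ V, V = (volume K).toReal := ⟨_, rfl⟩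
  have hV0 : 0 ≤ V := by
    rw [hV]
    exact ENNReal.toReal_nonneg
  have hI : ((UpperHalfPlane.I : ℍ) : ℂ) ∈ CA1_U := CA1_mem _
  refine ⟨1 + V * (1 + 2 * B + B ^ 2), by nlinarith [mul_nonneg hV0 hB0, mul_nonneg hV0 (sq_nonneg B)], ?_⟩
  intro κ M hκ hsupp hM g m hg hm
  have hM0 : 0 ≤ M := (abs_nonneg _).trans (hM 0 le_rfl).1
  have hm0 : 0 ≤ m := (abs_nonneg _).trans (hm UpperHalfPlane.I)
  have hdiff : Differentiable ℝ κ := hκ.smooth.differentiable (by simp)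
  have hκ' : ContDiff ℝ ∞ (deriv κ) := by
    have h' : ContDiff ℝ (∞ + 1) κ := hκ.smooth
    exact ((contDiff_succ_iff_deriv).1 h').2.2
  have hdiff' : Differentiable ℝ (deriv κ) := hκ'.differentiable (by simp)
  have hs1 := EKF_dz κ hdiff hsupp
  have hs2 := EKF_dz (deriv κ) hdiff' hs1
  have hT : ∀ w : ℍ, EKF_T w ((UpperHalfPlane.I : ℍ) : ℂ) = tt UpperHalfPlane.I w := by
    intro w
    unfold EKF_T
    rw [CA1_val]
  obtain ⟨hinv, -, -, -, -, -, -, -⟩ := A_CVB ℝ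
  -- bounds at `i`
  have b0 : ∀ h : ℍ → ℝ, (∀ z, |h z| ≤ m) → |conv κ h UpperHalfPlane.I| ≤ V * (M * m) := by
    intro h hh
    rw [hV]
    unfold conv
    refine EKF_int K hK _ _ (fun w _ => ?_) (fun w hw => ?_)
    · rw [smul_eq_mul, abs_mul]
      exact mul_le_mul (hM _ (hTTT.2.1 _ _)).1 (hh w) (abs_nonneg _) hM0
    · rw [hsupp _ (hout w hw), zero_smul]
  have b1 : ∀ h : ℍ → ℝ, Continuous h → (∀ z, |h z| ≤ m) → ∀ v : ℂ, ‖v‖ = 1 →
      |fderiv ℝ (onC (conv κ h)) ((UpperHalfPlane.I : ℍ) : ℂ) v| ≤ V * (M * B * m) := by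
    intro h hc hh v hv
    rw [(A_CVS ℝ κ h hκ hc).2.1, hV]
    refine EKF_int K hK _ _ (fun w hw => ?_) (fun w hw => ?_)
    · rw [(EKF_D1 κ hκ.smooth w hI).fderiv, smul_eq_mul, abs_mul, hT]
      refine mul_le_mul ?_ (hh w) (abs_nonneg _) (by positivity)
      show |deriv κ (tt UpperHalfPlane.I w) •
        fderiv ℝ (EKF_T w) ((UpperHalfPlane.I : ℍ) : ℂ) v| ≤ M * B
      rw [smul_eq_mul, abs_mul]
      refine mul_le_mul (hM _ (hTTT.2.1 _ _)).2.1 ?_ (abs_nonneg _) hM0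
      have h1 := (fderiv ℝ (EKF_T w) ((UpperHalfPlane.I : ℍ) : ℂ)).le_opNorm v
      rw [hv, mul_one] at h1
      exact h1.trans (hB w hw).1
    · rw [(EKF_D1 κ hκ.smooth w hI).fderiv, hT, hs1 _ (hout w hw), zero_smul]
      simp
  have b2 : ∀ h : ℍ → ℝ, Continuous h → (∀ z, |h z| ≤ m) → ∀ v v' : ℂ, ‖v‖ = 1 → ‖v'‖ = 1 →
      |fderiv ℝ (fderiv ℝ (onC (conv κ h))) ((UpperHalfPlane.I : ℍ) : ℂ) v v'| ≤
        V * (M * (B + B ^ 2) * m) := by
    intro h hc hh v v' hv hv'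
    rw [(A_CVS ℝ κ h hκ hc).2.2.1, hV]
    refine EKF_int K hK _ _ (fun w hw => ?_) (fun w hw => ?_)
    · rw [EKF_D2 κ hκ.smooth w hI, smul_eq_mul, abs_mul, hT]
      refine mul_le_mul ?_ (hh w) (abs_nonneg _) (by positivity)
      have h1 : ∀ u : ℂ, ‖u‖ = 1 →
          |fderiv ℝ (EKF_T w) ((UpperHalfPlane.I : ℍ) : ℂ) u| ≤ B := by
        intro u hu
        have h1 := (fderiv ℝ (EKF_T w) ((UpperHalfPlane.I : ℍ) : ℂ)).le_opNorm u
        rw [hu, mul_one] at h1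
        exact h1.trans (hB w hw).1
      have h2 : |fderiv ℝ (fderiv ℝ (EKF_T w)) ((UpperHalfPlane.I : ℍ) : ℂ) v v'| ≤ B := by
        have h3 := (fderiv ℝ (fderiv ℝ (EKF_T w)) ((UpperHalfPlane.I : ℍ) : ℂ) v).le_opNorm v'
        have h4 := (fderiv ℝ (fderiv ℝ (EKF_T w)) ((UpperHalfPlane.I : ℍ) : ℂ)).le_opNorm v
        rw [hv', mul_one] at h3
        rw [hv, mul_one] at h4
        exact h3.trans (h4.trans (hB w hw).2)
      have k1 := (hM (tt UpperHalfPlane.I w) (hTTT.2.1 _ _)).2.1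
      have k2 := (hM (tt UpperHalfPlane.I w) (hTTT.2.1 _ _)).2.2
      calc |deriv κ (tt UpperHalfPlane.I w) *
            fderiv ℝ (fderiv ℝ (EKF_T w)) ((UpperHalfPlane.I : ℍ) : ℂ) v v' +
            deriv (deriv κ) (tt UpperHalfPlane.I w) *
              (fderiv ℝ (EKF_T w) ((UpperHalfPlane.I : ℍ) : ℂ) v) *
              (fderiv ℝ (EKF_T w) ((UpperHalfPlane.I : ℍ) : ℂ) v')|
          ≤ |deriv κ (tt UpperHalfPlane.I w) *
            fderiv ℝ (fderiv ℝ (EKF_T w)) ((UpperHalfPlane.I : ℍ) : ℂ) v v'| +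
            |deriv (deriv κ) (tt UpperHalfPlane.I w) *
              (fderiv ℝ (EKF_T w) ((UpperHalfPlane.I : ℍ) : ℂ) v) *
              (fderiv ℝ (EKF_T w) ((UpperHalfPlane.I : ℍ) : ℂ) v')| := abs_add_le _ _
        _ ≤ M * B + M * B * B := by
            rw [abs_mul, abs_mul, abs_mul]
            exact add_le_add (mul_le_mul k1 h2 (abs_nonneg _) hM0)
              (mul_le_mul (mul_le_mul k2 (h1 v hv) (abs_nonneg _) hM0) (h1 v' hv')
                (abs_nonneg _) (by positivity))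
        _ = M * (B + B ^ 2) := by ring
    · rw [EKF_D2 κ hκ.smooth w hI, hT, hs1 _ (hout w hw), hs2 _ (hout w hw)]
      simp
  -- all derivatives at `z` in terms of those at `i`
  have key : ∀ (z : ℍ) (a b : ℂ), ‖a‖ = 1 → ‖b‖ = 1 →
      |conv κ g z| ≤ V * (M * m) ∧ |FRB_dV a (conv κ g) z| ≤ V * (M * B * m) ∧
      |FRB_dV b (FRB_dV a (conv κ g)) z| ≤
        |b.im| * (V * (M * B * m)) + V * (M * (B + B ^ 2) * m) := by
    intro z a b ha hb
    obtain ⟨p, hp⟩ := FRB_aff z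
    have hpI : p • UpperHalfPlane.I = z := by
      apply UpperHalfPlane.ext
      rw [hp]
      have : ((UpperHalfPlane.I : ℍ) : ℂ) = Complex.I := rfl
      rw [this]
      apply Complex.ext <;> simp
    set g' : ℍ → ℝ := fun w => g (p • w) with hg'
    have hgc : Continuous g' := hg.comp (continuous_const_smul p)
    have hgm : ∀ w, |g' w| ≤ m := fun w => hm _
    have hgg : (fun w : ℍ => conv κ g (p • w)) = conv κ g' := by
      funext w
      exact (hinv κ g p w).symm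
    have hcd := FRB_cd A_CVS κ hκ g hg
    have hcd' := FRB_cd A_CVS κ hκ g' hgc
    have hd1 : ∀ w : ℍ, FRB_dV a (conv κ g) (p • w) = FRB_dV a (conv κ g') w := by
      intro w
      rw [← FRB_inv a (conv κ g) z p hp w (CA1_diff (FRB_cd1 hcd) _), hgg]
    have hIim : (UpperHalfPlane.I : ℍ).im = 1 := rfl
    refine ⟨?_, ?_, ?_⟩
    · rw [← hpI]
      have e0 : conv κ g (p • UpperHalfPlane.I) = conv κ g' UpperHalfPlane.I :=
        congrFun hgg UpperHalfPlane.I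
      rw [e0]
      exact b0 g' hgm
    · have e1 : FRB_dV a (conv κ g) z =
          fderiv ℝ (onC (conv κ g')) ((UpperHalfPlane.I : ℍ) : ℂ) a := by
        rw [← hpI, hd1]
        unfold FRB_dV
        rw [hIim, one_smul]
      rw [e1]
      exact b1 g' hgc hgm a ha
    · have hcdV : CD 1 (FRB_dV a (conv κ g)) := by
        have h7 : ContDiffOn ℝ (1 : ℕ) (fun w : ℂ => w.im • fderiv ℝ (onC (conv κ g)) w a)
            CA1_U :=
          CA1_deriv (conv κ g) 1 a (by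
            have : (((1 : ℕ) : WithTop ℕ∞) + 1) = 2 := by norm_num
            rw [this]
            exact hcd)
        exact h7.congr (fun w hw => FRB_dVon a _ hw)
      have e2 : FRB_dV b (FRB_dV a (conv κ g)) z =
          b.im * fderiv ℝ (onC (conv κ g')) ((UpperHalfPlane.I : ℍ) : ℂ) a +
          fderiv ℝ (fderiv ℝ (onC (conv κ g'))) ((UpperHalfPlane.I : ℍ) : ℂ) b a := by
        rw [← hpI, ← FRB_inv b (FRB_dV a (conv κ g)) z p hp UpperHalfPlane.I (CA1_diff hcdV _)]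
        have h8 : (fun w : ℍ => FRB_dV a (conv κ g) (p • w)) = FRB_dV a (conv κ g') := funext hd1
        rw [h8, FRB_dd a b (conv κ g') hcd', hIim]
        ring
      rw [e2]
      have h9 := b1 g' hgc hgm a ha
      have h10 := b2 g' hgc hgm b a hb ha
      refine (abs_add_le _ _).trans (add_le_add ?_ h10)
      rw [abs_mul]
      exact mul_le_mul_of_nonneg_left h9 (abs_nonneg _)
  have im1 : (1 : ℂ).im = 0 := rfl
  have imI : Complex.I.im = 1 := rfl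
  have n1 : ‖(1 : ℂ)‖ = 1 := by simp
  have nI : ‖Complex.I‖ = 1 := by simp
  have hMm : 0 ≤ M * m := mul_nonneg hM0 hm0
  have c0 : V * (M * m) ≤ (1 + V * (1 + 2 * B + B ^ 2)) * M * m := by
    have e : (1 + V * (1 + 2 * B + B ^ 2)) * M * m - V * (M * m) =
        M * m * (1 + V * (2 * B + B ^ 2)) := by ring
    have : 0 ≤ M * m * (1 + V * (2 * B + B ^ 2)) := by positivity
    linarith
  have c1 : V * (M * B * m) ≤ (1 + V * (1 + 2 * B + B ^ 2)) * M * m := by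
    have e : (1 + V * (1 + 2 * B + B ^ 2)) * M * m - V * (M * B * m) =
        M * m * (1 + V * (1 + B + B ^ 2)) := by ring
    have : 0 ≤ M * m * (1 + V * (1 + B + B ^ 2)) := by positivity
    linarith
  have c2 : V * (M * B * m) + V * (M * (B + B ^ 2) * m) ≤
      (1 + V * (1 + 2 * B + B ^ 2)) * M * m := by
    have e : (1 + V * (1 + 2 * B + B ^ 2)) * M * m -
        (V * (M * B * m) + V * (M * (B + B ^ 2) * m)) = M * m * (1 + V) := by ring
    have : 0 ≤ M * m * (1 + V) := by positivity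
    linarith
  have c3 : V * (M * (B + B ^ 2) * m) ≤ (1 + V * (1 + 2 * B + B ^ 2)) * M * m := by
    have : 0 ≤ V * (M * B * m) := by positivity
    linarith
  refine ⟨FRB_cd A_CVS κ hκ g hg, fun z => ?_⟩
  have k11 := key z 1 1 n1 n1
  have k1I := key z 1 Complex.I n1 nI
  have kI1 := key z Complex.I 1 nI n1
  have kII := key z Complex.I Complex.I nI nI
  rw [im1, abs_zero, zero_mul, zero_add] at k11 kI1
  rw [imI, abs_one, one_mul] at k1I kII
  exact ⟨k11.1.trans c0, k11.2.1.trans c1, kI1.2.1.trans c1, k11.2.2.trans c3,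
    kI1.2.2.trans c3, k1I.2.2.trans c2, kII.2.2.trans c2⟩

end Pool.Agent.QX
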